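import Pool.Agent.H73.CBD.Stmts

/-! # Row HLP of the board `cbd` -/

set_option autoImplicit false

open Set Filter Topology

namespace Pool.CBD

theorem HLP_thm (h1 : PRDStmt) (h2 : LPKStmt) (h3 : INTStmt) (h4 : NRMStmt) : HLPStmt := by
  obtain ⟨θ, C, hθ, hθ2, hC, hP⟩ := h1
  obtain ⟨C', M, hC', hM, hL⟩ := h2
  obtain ⟨α, K, hα, hα1, hK, hI⟩ := h3 θ C M C' hθ hθ2 hC hM hC'
  refine ⟨α, K, hα, hα1, hK, fun z w hz hw => ?_⟩
  have hd : ‖nrm z - nrm w‖ ≤ 2 := by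
    have e1 := norm_sub_le (nrm z) (nrm w)
    have e2 := (h4.2 z hz).1
    have e3 := (h4.2 w hw).1
    linarith
  exact hI (fun k => F k z) (fun k => F k w) ‖nrm z - nrm w‖ (norm_nonneg _) hd
    (fun k => hP k z hz) (fun k => hP k w hw) (fun k => hL k z w hz hw)

end Pool.CBD
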